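import Pool.Agent.Helper96.SA.Diag
import Pool.Agent.Helper96.FR.Lat3

/-!
# Lattices are icc (MP_0f6f3f_an; project BD)

`commute_of_cluster`: if `w` is a cluster point of the matrices `exp(nX) c exp(-nX)`, `c` in a finite set, `X` symmetric, then `w` commutes with `X`.
`icc_of_lattice`: if no element of `G` except `1` commutes with all symmetric matrices in `lie G`, then every lattice of `G` has infinite conjugacy classes (except `{1}`): recurrence of
`exp X` on the finite measure space `G / Γ`.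
-/

set_option autoImplicit false

open Matrix Filter Topology MeasureTheory NormedSpace

namespace Pool.Agent.Helper84.BD

open Pool.Agent.Helper96.SA Pool.Agent.Helper96.FR

variable {N : ℕ}

theorem commute_of_cluster {X w : Mat N} (hX : Xᵀ = X) {C : Set (Mat N)} (hC : C.Finite)
    (h : ∀ U ∈ 𝓝 w, ∃ᶠ n : ℕ in atTop, ∃ c ∈ C, exp ((n : ℝ) • X) * c * exp (-((n : ℝ) • X)) ∈ U) :
    w * X = X * w := by
  obtain ⟨O, h1, h2, h3⟩ := simDiag {X} (by
    rintro Y rfl
    exact hX) (by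
    rintro Y rfl Z rfl
    rfl)
  obtain ⟨d, hd⟩ := h3 X rfl
  -- the entries in the eigenbasis
  have hent : ∀ (n : ℕ) (c : Mat N) (i j : Fin N),
      (Oᵀ * (exp ((n : ℝ) • X) * c * exp (-((n : ℝ) • X))) * O) i j =
        Real.exp (n * (d i - d j)) * (Oᵀ * c * O) i j := by
    intro n c i j
    have e1 : (n : ℝ) • X = O * diagonal (fun i => n * d i) * Oᵀ := by
      rw [hd]
      have : diagonal (fun i => (n : ℝ) * d i) = (n : ℝ) • diagonal d := by
        rw [← diagonal_smul]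
        rfl
      rw [this, mul_smul_comm, smul_mul_assoc]
    have e2 : -((n : ℝ) • X) = O * diagonal (fun i => -(n * d i)) * Oᵀ := by
      rw [e1]
      have : diagonal (fun i => -((n : ℝ) * d i)) = -diagonal (fun i => (n : ℝ) * d i) := by
        rw [diagonal_neg]
      rw [this, mul_neg, neg_mul]
    rw [e2, e1, exp_diag O h1 h2, exp_diag O h1 h2]
    have e3 : Oᵀ * (O * diagonal (fun i => Real.exp (n * d i)) * Oᵀ * c *
        (O * diagonal (fun i => Real.exp (-(n * d i))) * Oᵀ)) * O =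
        (Oᵀ * O) * diagonal (fun i => Real.exp (n * d i)) * (Oᵀ * c * O) *
          diagonal (fun i => Real.exp (-(n * d i))) * (Oᵀ * O) := by
      noncomm_ring
    rw [e3, h1, one_mul, mul_one, mul_diagonal, diagonal_mul]
    have e4 : Real.exp (n * (d i - d j)) = Real.exp (n * d i) * Real.exp (-(n * d j)) := by
      rw [← Real.exp_add]
      congr 1
      ring
    rw [e4]
    ring
  have hcont : ∀ i j : Fin N, Continuous fun M : Mat N => (Oᵀ * M * O) i j := by
    intro i j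
    exact ((continuous_const.matrix_mul continuous_id).matrix_mul continuous_const).matrix_elem i j
  -- entries between different eigenvalues vanish
  have hzero : ∀ i j, d i ≠ d j → (Oᵀ * w * O) i j = 0 := by
    intro i j hij
    by_contra hne
    set a : ℝ := (Oᵀ * w * O) i j with ha
    have hapos : 0 < |a| := abs_pos.2 hne
    have hU : {M : Mat N | |(Oᵀ * M * O) i j - a| < |a| / 2} ∈ 𝓝 w := by
      refine ((hcont i j).sub continuous_const).abs.continuousAt.eventually (gt_mem_nhds ?_)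
      change |(Oᵀ * w * O) i j - a| < |a| / 2
      rw [← ha, sub_self, abs_zero]
      positivity
    have hfr := h _ hU
    -- bounds for the finite set
    obtain ⟨B, hB⟩ : ∃ B : ℝ, ∀ c ∈ C, |(Oᵀ * c * O) i j| ≤ B := by
      obtain ⟨B, hB⟩ := (hC.image fun c => |(Oᵀ * c * O) i j|).bddAbove
      exact ⟨B, fun c hc => hB ⟨c, hc, rfl⟩⟩
    obtain ⟨η, hη, hη2⟩ : ∃ η : ℝ, 0 < η ∧ ∀ c ∈ C, (Oᵀ * c * O) i j ≠ 0 → η ≤ |(Oᵀ * c * O) i j| := by
      have hfin : ((fun c => |(Oᵀ * c * O) i j|) '' {c ∈ C | (Oᵀ * c * O) i j ≠ 0}).Finite :=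
        (hC.subset fun c hc => hc.1).image _
      by_cases hem : ((fun c => |(Oᵀ * c * O) i j|) '' {c ∈ C | (Oᵀ * c * O) i j ≠ 0}).Nonempty
      · obtain ⟨η, ⟨c, hc, rfl⟩, hmin⟩ := hfin.exists_minimal hem
        refine ⟨_, abs_pos.2 hc.2, fun c' hc' hc'' => ?_⟩
        rcases le_total (|(Oᵀ * c * O) i j|) (|(Oᵀ * c' * O) i j|) with h5 | h5
        · exact h5
        · exact hmin ⟨c', ⟨hc', hc''⟩, rfl⟩ h5
      · refine ⟨1, one_pos, fun c hc hc' => ?_⟩
        exact absurd ⟨_, c, ⟨hc, hc'⟩, rfl⟩ hem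
    have hlow : ∀ x : ℝ, |x - a| < |a| / 2 → |a| / 2 < |x| ∧ |x| < 2 * |a| := by
      intro x hx
      have h5 := abs_sub_abs_le_abs_sub a x
      have h6 := abs_sub_abs_le_abs_sub x a
      rw [abs_sub_comm a x] at h5
      constructor <;> linarith
    rcases lt_or_gt_of_ne hij with hlt | hgt
    · have ht : Tendsto (fun n : ℕ => Real.exp (n * (d i - d j)) * B) atTop (𝓝 0) := by
        have h5 : Tendsto (fun n : ℕ => Real.exp (n * (d i - d j))) atTop (𝓝 0) := by
          refine Real.tendsto_exp_atBot.comp ?_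
          exact tendsto_natCast_atTop_atTop.atTop_mul_const_of_neg (sub_neg.2 hlt)
        simpa using h5.mul_const B
      obtain ⟨n, ⟨c, hc, hcU⟩, hn⟩ := (hfr.and_eventually (ht.eventually
        (gt_mem_nhds (show (0 : ℝ) < |a| / 2 by positivity)))).exists
      have h6 := (hlow _ hcU).1
      rw [hent, abs_mul, abs_of_pos (Real.exp_pos _)] at h6
      have h7 := mul_le_mul_of_nonneg_left (hB c hc) (Real.exp_pos (n * (d i - d j))).le
      linarith
    · have ht : Tendsto (fun n : ℕ => Real.exp (n * (d i - d j)) * η) atTop atTop := by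
        refine Tendsto.atTop_mul_const hη ?_
        refine Real.tendsto_exp_atTop.comp ?_
        exact tendsto_natCast_atTop_atTop.atTop_mul_const (sub_pos.2 hgt)
      obtain ⟨n, ⟨c, hc, hcU⟩, hn⟩ := (hfr.and_eventually (ht.eventually_ge_atTop (2 * |a|))).exists
      have h6 := hlow _ hcU
      rw [hent, abs_mul, abs_of_pos (Real.exp_pos _)] at h6
      have hc0 : (Oᵀ * c * O) i j ≠ 0 := by
        intro h0
        rw [h0, abs_zero, mul_zero] at h6
        linarith
      have h7 := mul_le_mul_of_nonneg_left (hη2 c hc hc0) (Real.exp_pos (n * (d i - d j))).le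
      linarith
  -- conclusion
  have hw : w = O * (Oᵀ * w * O) * Oᵀ := by
    have : O * (Oᵀ * w * O) * Oᵀ = (O * Oᵀ) * w * (O * Oᵀ) := by noncomm_ring
    rw [this, h2, one_mul, mul_one]
  have hcd : (Oᵀ * w * O) * diagonal d = diagonal d * (Oᵀ * w * O) := by
    ext i j
    rw [mul_diagonal, diagonal_mul]
    by_cases hij : d i = d j
    · rw [hij, mul_comm]
    · rw [hzero i j hij, zero_mul, mul_zero]
  calc w * X = O * (Oᵀ * w * O) * Oᵀ * (O * diagonal d * Oᵀ) := by rw [← hw, ← hd]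
    _ = O * ((Oᵀ * w * O) * (Oᵀ * O) * diagonal d) * Oᵀ := by noncomm_ring
    _ = O * (diagonal d * (Oᵀ * O) * (Oᵀ * w * O)) * Oᵀ := by rw [h1, mul_one, hcd, mul_one]
    _ = (O * diagonal d * Oᵀ) * (O * (Oᵀ * w * O) * Oᵀ) := by noncomm_ring
    _ = X * w := by rw [← hw, ← hd]

/-- If no element of `G` except `1` commutes with all symmetric matrices in `lie G`, then the lattices of `G` have infinite conjugacy classes. -/
theorem icc_of_lattice (G : Subgroup (GL (Fin N) ℝ)) (Γ : Subgroup G) (hΓ : Pool.Agent.Helper96.FR.Lattice Γ)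
    (hc : ∀ w : G, (∀ X ∈ lie G, Xᵀ = X → ((w : GL (Fin N) ℝ) : Mat N) * X = X * ((w : GL (Fin N) ℝ) : Mat N)) →
      w = 1) : ∀ γ : Γ, γ ≠ 1 → (Set.range fun δ : Γ => δ * γ * δ⁻¹).Infinite := by
  intro γ hγ
  rw [Set.Infinite]
  intro hfin
  obtain ⟨-, ν, hν0, hν1, hinv⟩ := hΓ
  have hscM : SecondCountableTopology (Mat N) :=
    inferInstanceAs (SecondCountableTopology (Fin N → Fin N → ℝ))
  have hsc : SecondCountableTopology (GL (Fin N) ℝ) := isEmbedding_val.secondCountableTopology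
  let _ : MeasurableSpace (G ⧸ Γ) := borel (G ⧸ Γ)
  have _ : BorelSpace (G ⧸ Γ) := ⟨rfl⟩
  have hscG : SecondCountableTopology G := TopologicalSpace.Subtype.secondCountableTopology (G : Set (GL (Fin N) ℝ))
  have hscQ : SecondCountableTopology (G ⧸ Γ) :=
    (QuotientGroup.isQuotientMap_mk Γ).secondCountableTopology QuotientGroup.isOpenMap_coe
  have hfm : IsFiniteMeasure ν := ⟨lt_top_iff_ne_top.2 hν1⟩
  have hne : NeBot (ae ν) := by
    rw [ae_neBot]
    rintro rfl
    exact hν0 rfl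
  have hmp : ∀ a : G, MeasurePreserving (fun x : G ⧸ Γ => a • x) ν ν := by
    intro a
    refine ⟨(continuous_const_smul a).measurable, ?_⟩
    ext s hs
    rw [Measure.map_apply (continuous_const_smul a).measurable hs]
    exact hinv a s hs
  -- the symmetric matrices of the Lie algebra
  let P : Set (Mat N) := {X | X ∈ lie G ∧ Xᵀ = X}
  obtain ⟨D0, hD0c, hD0d⟩ := TopologicalSpace.exists_countable_dense P
  -- recurrent points
  have hrec : ∀ᵐ x ∂ν, ∀ X ∈ D0, ∀ s ∈ 𝓝 x, ∃ᶠ n : ℕ in atTop,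
      ((ex (X : Mat N) : GL (Fin N) ℝ) ∈ G) ∧ ∃ a : G, (a : GL (Fin N) ℝ) = ex ((n : ℝ) • (X : Mat N)) ∧ a • x ∈ s := by
    rw [ae_ball_iff hD0c]
    intro X _
    have hX1 : ex (X : Mat N) ∈ G := by
      have := mem_lie.1 X.2.1 1
      rwa [one_smul] at this
    let a : G := ⟨ex (X : Mat N), hX1⟩
    have h1 := (hmp a).conservative.ae_frequently_mem_of_mem_nhds
    filter_upwards [h1] with x hx s hs
    refine (hx s hs).mono fun n hn => ⟨hX1, a ^ n, ?_, ?_⟩
    · rw [ex_nsmul]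
      rfl
    · have e : ∀ n : ℕ, (fun x : G ⧸ Γ => a • x)^[n] x = a ^ n • x := by
        intro n
        induction n with
        | zero => rw [Function.iterate_zero, id, pow_zero, one_smul]
        | succ n ih => rw [Function.iterate_succ', Function.comp_apply, ih, pow_succ', mul_smul]
      rw [e] at hn
      exact hn
  obtain ⟨x, hx⟩ := hrec.exists
  obtain ⟨g, rfl⟩ := QuotientGroup.mk_surjective x
  -- the conjugate
  let w : G := g * γ * g⁻¹
  let f : G → Mat N := fun h => (((h * γ * h⁻¹ : G) : GL (Fin N) ℝ) : Mat N)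
  have hf : Continuous f := by
    have h1 : Continuous fun h : G => h * γ * h⁻¹ := by fun_prop
    exact Units.continuous_val.comp (continuous_subtype_val.comp h1)
  let C : Set (Mat N) := (fun δ : Γ => (((g * δ * g⁻¹ : G) : GL (Fin N) ℝ) : Mat N)) '' (Set.range fun δ : Γ => δ * γ * δ⁻¹)
  have hC : C.Finite := hfin.image _
  have hcomm : ∀ X ∈ D0, ((w : GL (Fin N) ℝ) : Mat N) * (X : Mat N) = (X : Mat N) * ((w : GL (Fin N) ℝ) : Mat N) := by
    intro X hX
    refine commute_of_cluster X.2.2 hC fun U hU => ?_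
    have hV : f ⁻¹' U ∈ 𝓝 g := hf.continuousAt.preimage_mem_nhds hU
    have hV2 : ((↑) : G → G ⧸ Γ) '' (f ⁻¹' U) ∈ 𝓝 ((g : G) : G ⧸ Γ) :=
      QuotientGroup.isOpenMap_coe.image_mem_nhds hV
    refine (hx X hX _ hV2).mono fun n hn => ?_
    obtain ⟨-, a, ha, h, hh, hh2⟩ := hn
    have h3 : (a • (g : G ⧸ Γ)) = ((a * g : G) : G ⧸ Γ) := rfl
    rw [h3, QuotientGroup.eq] at hh2
    -- `h⁻¹ * (a * g) ∈ Γ`
    let δ : Γ := ⟨h⁻¹ * (a * g), hh2⟩
    refine ⟨_, ⟨_, ⟨δ⁻¹, rfl⟩, rfl⟩, ?_⟩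
    have e1 : h * γ * h⁻¹ = a * (g * ((δ⁻¹ * γ * (δ⁻¹)⁻¹ : Γ) : G) * g⁻¹) * a⁻¹ := by
      change h * (γ : G) * h⁻¹ = a * (g * ((h⁻¹ * (a * g))⁻¹ * (γ : G) * ((h⁻¹ * (a * g))⁻¹)⁻¹) * g⁻¹) * a⁻¹
      group
    have e2 : (((a⁻¹ : G) : GL (Fin N) ℝ) : Mat N) = exp (-((n : ℝ) • (X : Mat N))) := by
      have : ((a⁻¹ : G) : GL (Fin N) ℝ) = ex (-((n : ℝ) • (X : Mat N))) := by
        rw [ex_neg, ← ha]
        rfl
      rw [this, ex_coe]
    have e3 : f h = exp ((n : ℝ) • (X : Mat N)) *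
        (((g * ((δ⁻¹ * γ * (δ⁻¹)⁻¹ : Γ) : G) * g⁻¹ : G) : GL (Fin N) ℝ) : Mat N) *
        exp (-((n : ℝ) • (X : Mat N))) := by
      change (((h * γ * h⁻¹ : G) : GL (Fin N) ℝ) : Mat N) = _
      rw [e1, ← e2, ← ex_coe, ← ha]
      rfl
    rw [← e3]
    exact hh
  -- density
  have hcomm2 : ∀ X : P, ((w : GL (Fin N) ℝ) : Mat N) * (X : Mat N) = (X : Mat N) * ((w : GL (Fin N) ℝ) : Mat N) := by
    have hcl : IsClosed {X : P | ((w : GL (Fin N) ℝ) : Mat N) * (X : Mat N) = (X : Mat N) * ((w : GL (Fin N) ℝ) : Mat N)} :=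
      isClosed_eq (continuous_const.matrix_mul continuous_subtype_val)
        (continuous_subtype_val.matrix_mul continuous_const)
    intro X
    have h1 : closure D0 ⊆ {X : P | ((w : GL (Fin N) ℝ) : Mat N) * (X : Mat N) = (X : Mat N) * ((w : GL (Fin N) ℝ) : Mat N)} :=
      closure_minimal hcomm hcl
    exact h1 (hD0d X)
  have hw : w = 1 := hc w fun X hX hXs => hcomm2 ⟨X, hX, hXs⟩
  refine hγ (Subtype.ext ?_)
  have h1 : g * (γ : G) * g⁻¹ = 1 := hw
  have h2 : (γ : G) = g⁻¹ * (g * (γ : G) * g⁻¹) * g := by group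
  rw [h2, h1]
  simp

end Pool.Agent.Helper84.BD
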