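import Pool.Agent.Helper96.SA.Adj3
import Pool.Agent.Helper84.BD.Icc
import Pool.Agent.Helper66.RK.StmtDef

/-!
# Lattices in adjoint groups of simple real Lie algebras are icc (MP_0f6f3f_an; project BD)

`icc_aut`: let `L` be a simple real Lie algebra with Cartan involution `θ` which is not compact (`θ x = -x` for some `x ≠ 0`), and `G` a closed group of automorphisms of `L` which contains the `exp(ad x)`.
Then every lattice of `G` has infinite conjugacy classes. (An automorphism which commutes with all `ad x`, `θ x = -x`, fixes these `x`, hence the ideal which they generate.)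
-/

set_option autoImplicit false

open Matrix

namespace Pool.Agent.Helper84.BD

open Pool.Agent.Helper96.SA Pool.Agent.Helper66.RKS

variable {L : Type} [LieRing L] [LieAlgebra ℝ L] {N : ℕ}

private theorem coord84 {θ : L ≃ₗ⁅ℝ⁆ L} {b : Module.Basis (Fin N) ℝ L} (h : CartanBasis θ b) (x : L) (i : Fin N) :
    b.repr x i = -killingForm ℝ L x (θ (b i)) := by
  conv_rhs => rw [← b.sum_repr x]
  simp only [map_sum, map_smul, LinearMap.sum_apply, LinearMap.smul_apply]
  rw [← Finset.sum_neg_distrib]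
  have h1 : ∀ j, -(b.repr x j • killingForm ℝ L (b j) (θ (b i))) = b.repr x j * (if j = i then 1 else 0) := by
    intro j
    rw [← h.orth j i, smul_eq_mul, mul_neg]
  simp only [h1]
  simp

/-- The matrix of `ad x`. -/
noncomputable def adM (b : Module.Basis (Fin N) ℝ L) (x : L) : Mat N := LinearMap.toMatrix b b (LieAlgebra.ad ℝ L x)

theorem toLin_adM (b : Module.Basis (Fin N) ℝ L) (x y : L) : toLin b b (adM b x) y = ⁅x, y⁆ := by
  unfold adM
  rw [Matrix.toLin_toMatrix, LieAlgebra.ad_apply]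

theorem adM_mem (b : Module.Basis (Fin N) ℝ L) (x : L) : adM b x ∈ lie (autG b) := by
  rw [lie_autG]
  intro y z
  rw [toLin_adM, toLin_adM, toLin_adM]
  exact leibniz_lie x y z

theorem adM_symm {θ : L ≃ₗ⁅ℝ⁆ L} {b : Module.Basis (Fin N) ℝ L} (h : CartanBasis θ b) {x : L} (hx : θ x = -x) :
    (adM b x)ᵀ = adM b x := by
  ext i j
  unfold adM
  rw [Matrix.transpose_apply, LinearMap.toMatrix_apply, LinearMap.toMatrix_apply, LieAlgebra.ad_apply,
    LieAlgebra.ad_apply, coord84 h, coord84 h]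
  have h1 : killingForm ℝ L ⁅θ x, b j⁆ (θ (b i)) = killingForm ℝ L ⁅x, θ (b j)⁆ (b i) := by
    rw [← LieAlgebra.killingForm_of_equiv_apply θ ⁅x, θ (b j)⁆ (b i), LieEquiv.map_lie, h.invol]
  have h2 : killingForm ℝ L ⁅x, b i⁆ (θ (b j)) = -killingForm ℝ L (b i) ⁅x, θ (b j)⁆ :=
    LieModule.traceForm_apply_lie_apply' ℝ L L x (b i) (θ (b j))
  rw [hx, neg_lie, map_neg, LinearMap.neg_apply] at h1
  rw [h2, neg_neg, LieModule.traceForm_comm, ← h1]

/-- The ideal generated by the `-1`-eigenspace of `θ`. -/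
theorem span_eq_top {θ : L ≃ₗ⁅ℝ⁆ L} (hθ : ∀ x, θ (θ x) = x) (hs : LieAlgebra.IsSimple ℝ L)
    (hp : ∃ x : L, x ≠ 0 ∧ θ x = -x) :
    Submodule.span ℝ ({x : L | θ x = -x} ∪ {z | ∃ x y, θ x = -x ∧ θ y = -y ∧ z = ⁅x, y⁆}) = ⊤ := by
  set T : Set L := {x : L | θ x = -x} ∪ {z | ∃ x y, θ x = -x ∧ θ y = -y ∧ z = ⁅x, y⁆} with hT
  have hgen : ∀ z : L, ∀ m ∈ T, ⁅z, m⁆ ∈ Submodule.span ℝ T := by
    intro z m hm
    -- decomposition of `z`
    have hz : z = (2 : ℝ)⁻¹ • (z + θ z) + (2 : ℝ)⁻¹ • (z - θ z) := by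
      rw [← smul_add]
      have : z + θ z + (z - θ z) = (2 : ℝ) • z := by
        rw [two_smul]
        abel
      rw [this, smul_smul, inv_mul_cancel₀ two_ne_zero, one_smul]
    set k : L := (2 : ℝ)⁻¹ • (z + θ z) with hk
    set p : L := (2 : ℝ)⁻¹ • (z - θ z) with hpdef
    have hkθ : θ k = k := by
      rw [hk, map_smul, map_add, hθ, add_comm]
    have hpθ : θ p = -p := by
      rw [hpdef, map_smul, map_sub, hθ, ← smul_neg, neg_sub]
    have key1 : ∀ c m : L, θ c = c → θ m = -m → θ ⁅c, m⁆ = -⁅c, m⁆ := by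
      intro c m hc hm
      rw [LieEquiv.map_lie, hc, hm, lie_neg]
    have key2 : ∀ x y : L, θ x = -x → θ y = -y → θ ⁅x, y⁆ = ⁅x, y⁆ := by
      intro x y hx hy
      rw [LieEquiv.map_lie, hx, hy, neg_lie, lie_neg, neg_neg]
    rw [hz, add_lie]
    rcases hm with hm | ⟨x, y, hx, hy, rfl⟩
    · refine Submodule.add_mem _ (Submodule.subset_span (Or.inl (key1 k m hkθ hm)))
        (Submodule.subset_span (Or.inr ⟨p, m, hpθ, hm, rfl⟩))
    · refine Submodule.add_mem _ ?_ ?_
      · rw [leibniz_lie]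
        exact Submodule.add_mem _ (Submodule.subset_span (Or.inr ⟨_, _, key1 k x hkθ hx, hy, rfl⟩))
          (Submodule.subset_span (Or.inr ⟨_, _, hx, key1 k y hkθ hy, rfl⟩))
      · refine Submodule.subset_span (Or.inl ?_)
        have h1 := key1 ⁅x, y⁆ p (key2 x y hx hy) hpθ
        change θ ⁅p, ⁅x, y⁆⁆ = -⁅p, ⁅x, y⁆⁆
        rw [← lie_skew p ⁅x, y⁆, map_neg, h1]
  let I : LieIdeal ℝ L :=
    { Submodule.span ℝ T with
      lie_mem := by
        intro z m hm
        refine Submodule.span_induction (p := fun m _ => ⁅z, m⁆ ∈ Submodule.span ℝ T) (hgen z) ?_ ?_ ?_ hm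
        · rw [lie_zero]
          exact Submodule.zero_mem _
        · intro a c _ _ ha hc
          rw [lie_add]
          exact Submodule.add_mem _ ha hc
        · intro t a _ ha
          rw [lie_smul]
          exact Submodule.smul_mem _ t ha }
  obtain ⟨x, hx0, hx⟩ := hp
  have hxI : x ∈ I := Submodule.subset_span (Or.inl hx)
  rcases hs.eq_bot_or_eq_top I with h | h
  · rw [h, LieSubmodule.mem_bot] at hxI
    exact absurd hxI hx0
  · refine eq_top_iff.2 fun y _ => ?_
    have : y ∈ I := by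
      rw [h]
      exact LieSubmodule.mem_top y
    exact this

theorem eq_one_of_commute {θ : L ≃ₗ⁅ℝ⁆ L} {b : Module.Basis (Fin N) ℝ L} (h : CartanBasis θ b)
    (hs : LieAlgebra.IsSimple ℝ L) (hp : ∃ x : L, x ≠ 0 ∧ θ x = -x) {w : GL (Fin N) ℝ} (hw : w ∈ autG b)
    (hc : ∀ x : L, θ x = -x → (w : Mat N) * adM b x = adM b x * (w : Mat N)) : w = 1 := by
  rw [mem_autG] at hw
  set φ : L →ₗ[ℝ] L := toLin b b (w : Mat N) with hφ
  have hsurj : ∀ y, φ (toLin b b ((w⁻¹ : GL (Fin N) ℝ) : Mat N) y) = y := by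
    intro y
    rw [hφ, ← LinearMap.comp_apply, ← toLin_mul b b b, Units.mul_inv, toLin_one]
    rfl
  have hcomm : ∀ x, θ x = -x → ∀ z, φ ⁅x, z⁆ = ⁅x, φ z⁆ := by
    intro x hx z
    have h1 := congrArg (fun M => toLin b b M z) (hc x hx)
    simp only [toLin_mul b b b, LinearMap.comp_apply, toLin_adM] at h1
    exact h1
  have hfixp : ∀ x, θ x = -x → φ x = x := by
    intro x hx
    rw [← sub_eq_zero]
    refine eq_zero_of_bracket h fun u => ?_
    have h1 := hw x (toLin b b ((w⁻¹ : GL (Fin N) ℝ) : Mat N) u)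
    rw [hcomm x hx, hsurj] at h1
    rw [sub_lie, ← h1, sub_self]
  have hfix : ∀ x, φ x = x := by
    intro x
    have hx : x ∈ Submodule.span ℝ ({x : L | θ x = -x} ∪ {z | ∃ x y, θ x = -x ∧ θ y = -y ∧ z = ⁅x, y⁆}) := by
      rw [span_eq_top h.invol hs hp]
      exact Submodule.mem_top
    refine Submodule.span_induction (p := fun x _ => φ x = x) ?_ (map_zero φ) ?_ ?_ hx
    · rintro x (hx | ⟨y, z, hy, hz, rfl⟩)
      · exact hfixp x hx
      · rw [hw, hfixp y hy, hfixp z hz]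
    · intro x y _ _ hx hy
      rw [map_add, hx, hy]
    · intro t x _ hx
      rw [map_smul, hx]
  have h1 : φ = LinearMap.id := LinearMap.ext hfix
  apply Units.ext
  apply (toLin b b).injective
  rw [← hφ, h1, Units.val_one, toLin_one]

/-- Lattices in adjoint groups of simple noncompact real Lie algebras are icc. -/
theorem icc_aut {θ : L ≃ₗ⁅ℝ⁆ L} {b : Module.Basis (Fin N) ℝ L} (h : CartanBasis θ b)
    (hs : LieAlgebra.IsSimple ℝ L) (hp : ∃ x : L, x ≠ 0 ∧ θ x = -x) {G : Subgroup (GL (Fin N) ℝ)} (hG : IsAdj b G)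
    {Γ : Subgroup G} (hΓ : Pool.Agent.Helper96.FR.Lattice Γ) : IsICC Γ := by
  refine icc_of_lattice G Γ hΓ fun w hw => ?_
  apply Subtype.ext
  refine eq_one_of_commute h hs hp (hG.aut w.2) fun x hx => ?_
  exact hw _ (lie_sub h hG _ (adM_mem b x)) (adM_symm h hx)

/-- Positive rank. -/
theorem exists_of_rankL_pos {θ : L ≃ₗ⁅ℝ⁆ L} (h : 0 < rankL θ) : ∃ x : L, x ≠ 0 ∧ θ x = -x := by
  by_contra hcon
  push Not at hcon
  have h1 : rankL θ = 0 := by
    unfold rankL
    have : {d | ∃ a : Submodule ℝ L, (∀ x ∈ a, θ x = -x) ∧ (∀ x ∈ a, ∀ y ∈ a, ⁅x, y⁆ = 0) ∧ Module.finrank ℝ a = d} = {0} := by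
      ext d
      constructor
      · rintro ⟨a, ha, -, rfl⟩
        have ha0 : a = ⊥ := by
          refine (Submodule.eq_bot_iff a).2 fun x hx => ?_
          by_contra hx0
          exact hcon x hx0 (ha x hx)
        rw [ha0, finrank_bot]
        rfl
      · rintro rfl
        refine ⟨⊥, ?_, ?_, finrank_bot ℝ L⟩
        · intro x hx
          rw [(Submodule.mem_bot ℝ).1 hx, map_zero, neg_zero]
        · intro x hx y _
          rw [(Submodule.mem_bot ℝ).1 hx, zero_lie]
    rw [this, csSup_singleton]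
  omega

end Pool.Agent.Helper84.BD
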