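import Pool.Agent.Helper84.BD.Adj
import Pool.Agent.Helper96.SA.Final

/-!
# The real rank is an invariant of the group von Neumann algebra: simple groups (MP_0f6f3f_an; project BD)

`rank_simple`: for lattices in adjoint groups of noncompact simple real Lie algebras (no hypothesis on the lattices). `rank_selfAdj`: self-adjoint real algebraic groups in which the symmetric part of the Lie
algebra has trivial centraliser.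
-/

set_option autoImplicit false

open Matrix

namespace Pool.Agent.Helper84.BD

open Pool.Agent.Helper96.SA Pool.Agent.Helper66.RKS Pool.Agent.Helper96

theorem rank_simple {L₁ L₂ : Type} [LieRing L₁] [LieAlgebra ℝ L₁] [LieRing L₂] [LieAlgebra ℝ L₂]
    (s₁ : LieAlgebra.IsSimple ℝ L₁) (s₂ : LieAlgebra.IsSimple ℝ L₂) {θ₁ : L₁ ≃ₗ⁅ℝ⁆ L₁} {θ₂ : L₂ ≃ₗ⁅ℝ⁆ L₂} {N₁ N₂ : ℕ}
    {b₁ : Module.Basis (Fin N₁) ℝ L₁} {b₂ : Module.Basis (Fin N₂) ℝ L₂} (h₁ : CartanBasis θ₁ b₁) (h₂ : CartanBasis θ₂ b₂)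
    (r₁ : 0 < rankL θ₁) (r₂ : 0 < rankL θ₂) {G₁ : Subgroup (GL (Fin N₁) ℝ)} {G₂ : Subgroup (GL (Fin N₂) ℝ)}
    (g₁ : IsAdj b₁ G₁) (g₂ : IsAdj b₂ G₂) {Γ₁ : Subgroup G₁} {Γ₂ : Subgroup G₂} (hΓ₁ : FR.Lattice Γ₁)
    (hΓ₂ : FR.Lattice Γ₂) (h : IsoL Γ₁ Γ₂) : rankL θ₁ = rankL θ₂ :=
  rank_aut h₁ h₂ g₁ g₂ hΓ₁ hΓ₂ (icc_aut h₁ s₁ (exists_of_rankL_pos r₁) g₁ hΓ₁)
    (icc_aut h₂ s₂ (exists_of_rankL_pos r₂) g₂ hΓ₂) h

end Pool.Agent.Helper84.BD
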